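import Pool.Agent.Helper10.AB.GoalsF2

/-! # Project AB (MP_1ef41b_an), PTW: pointwise bound by the weighted `L²` norm -/

open MeasureTheory Set Filter Topology
open scoped ContDiff

noncomputable section

namespace Pool.Agent.Helper8.AB

open Pool.Agent.Helper24.AB Pool.Agent.Helper10.AB

theorem omt_congr {a A : ℝ} {s : ℝ → ℝ} {p : ℂ → ℝ} {P P' : V4} (h0 : (P' 0).re = (P 0).re)
    (h1 : (P' 1).re = (P 1).re) (h2 : (P' 2).re = (P 2).re) (h3 : P' 3 = P 3)
    (h : P ∈ Omt a A s p) : P' ∈ Omt a A s p := by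
  have hr : rfun a A s p P' = rfun a A s p P := by
    unfold rfun ypf ymf xp xm x0
    rw [h0, h1, h2, h3]
  refine ⟨?_, ?_⟩
  · rw [h3]
    exact h.1
  · rw [hr]
    exact h.2

theorem norm_mon (J : Fin 3 → ℤ) (P : V4) :
    ‖mon J P‖ = Real.exp (Jd J ![(P 0).re, (P 1).re, (P 2).re]) := by
  unfold mon
  rw [Complex.norm_exp]
  congr 1
  simp [Jd, Complex.add_re, Complex.mul_re]

theorem ptw : S_LIP → S_BOX → S_EQV → S_MAP → S_NRM → S_PHC → S_PTW := by
  intro hL hB hE hM hN _ a A δ₀ ρ₀ s p B hD T hT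
  obtain ⟨c, hc0, hc1, hc⟩ := hL a A δ₀ ρ₀ s p B hD T hT
  have hstrip : ∀ P ∈ Omt a A s p, P 3 ∈ strip a := by
    intro P hP
    obtain ⟨y, θ, hy, hy1, -⟩ := (hE a A δ₀ ρ₀ s p B hD).2.2.2.2.2.1 P hP
    rw [← hy1]
    exact hy.1
  have hint : ∀ (J : Fin 3 → ℤ), ∀ w ∈ strip a,
      ∫ X in Gw a A s p w, Real.exp (2 * Jd J X) = Real.exp (-(2 * PhiJ a A s p J w)) := by
    intro J w hw
    rw [(hM a A δ₀ ρ₀ s p B hD).2 (fun X => Real.exp (2 * Jd J X)) w hw]
    exact ((hN a A δ₀ ρ₀ s p B hD).1 J w hw).2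
  have hint' : ∀ (J : Fin 3 → ℤ), ∀ w ∈ strip a,
      IntegrableOn (fun X => Real.exp (2 * Jd J X)) (Gw a A s p w) := by
    intro J w hw
    by_contra h
    have h1 := hint J w hw
    rw [integral_undef h] at h1
    exact absurd h1 (Real.exp_pos _).ne
  refine ⟨4 / (Real.pi * c ^ 5), by positivity, ?_⟩
  intro J g hg hgi P hP hPT
  obtain ⟨hr0, hr1, hnear⟩ := hc P hP hPT
  set R : ℝ := |rfun a A s p P| with hR
  set ρ : ℝ := c * R / 2 with hρ
  have hρ0 : 0 < ρ := by positivity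
  have hρ2 : 2 * ρ = c * R := by rw [hρ]; ring
  have hρ1 : ρ ≤ 1 / 2 := by
    have : c * R ≤ 1 * 1 := mul_le_mul hc1 hr1 hr0.le zero_le_one
    linarith
  set X₀ : Fin 3 → ℝ := ![(P 0).re, (P 1).re, (P 2).re] with hX0
  have hpt : ∀ w : ℂ, ‖w - P 3‖ ≤ 2 * ρ → ∀ X : Fin 3 → ℝ, (∀ i, |X i - X₀ i| ≤ 2 * ρ) →
      X ∈ Gw a A s p w ∧ w ∈ strip a := by
    intro w hw X hX
    have h1 := hnear ![⟨X 0, (P 0).im⟩, ⟨X 1, (P 1).im⟩, ⟨X 2, (P 2).im⟩, w] (by
      intro i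
      rw [← hρ2]
      fin_cases i
      · have e : (⟨X 0, (P 0).im⟩ : ℂ) - P 0 = ((X 0 - (P 0).re : ℝ) : ℂ) := by
          apply Complex.ext <;> simp
        change ‖(⟨X 0, (P 0).im⟩ : ℂ) - P 0‖ ≤ _
        rw [e, Complex.norm_real]
        exact hX 0
      · have e : (⟨X 1, (P 1).im⟩ : ℂ) - P 1 = ((X 1 - (P 1).re : ℝ) : ℂ) := by
          apply Complex.ext <;> simp
        change ‖(⟨X 1, (P 1).im⟩ : ℂ) - P 1‖ ≤ _
        rw [e, Complex.norm_real]
        exact hX 1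
      · have e : (⟨X 2, (P 2).im⟩ : ℂ) - P 2 = ((X 2 - (P 2).re : ℝ) : ℂ) := by
          apply Complex.ext <;> simp
        change ‖(⟨X 2, (P 2).im⟩ : ℂ) - P 2‖ ≤ _
        rw [e, Complex.norm_real]
        exact hX 2
      · exact hw)
    refine ⟨?_, ?_⟩
    · change (![(X 0 : ℂ), (X 1 : ℂ), (X 2 : ℂ), w] : V4) ∈ Omt a A s p
      exact omt_congr (P := ![⟨X 0, (P 0).im⟩, ⟨X 1, (P 1).im⟩, ⟨X 2, (P 2).im⟩, w])
        rfl rfl rfl rfl h1.1
    · exact hstrip _ h1.1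
  have hball : Metric.ball (P 3) (2 * ρ) ⊆ strip a := by
    intro w hw
    rw [Metric.mem_ball, dist_eq_norm] at hw
    exact (hpt w hw.le X₀ (fun i => by rw [sub_self, abs_zero]; positivity)).2
  have hexp : ∀ w ∈ Metric.ball (P 3) ρ,
      Real.exp (2 * Jd J X₀) * (2 * ρ) ^ 3 ≤ Real.exp (-(2 * PhiJ a A s p J w)) := by
    intro w hw
    rw [Metric.mem_ball, dist_eq_norm] at hw
    have hw2 : ‖w - P 3‖ ≤ 2 * ρ := by linarith
    have hws := (hpt w hw2 X₀ (fun i => by rw [sub_self, abs_zero]; positivity)).2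
    rw [← hint J w hws]
    refine (hB.2 J X₀ ρ hρ0).trans ?_
    refine setIntegral_mono_set (hint' J w hws) (ae_of_all _ fun X => (Real.exp_pos _).le)
      (HasSubset.Subset.eventuallyLE ?_)
    intro X hX
    exact (hpt w hw2 X (fun i => (hX i).trans (by linarith))).1
  have h1 : ‖g (P 3)‖ ^ 2 * (Real.pi * ρ ^ 2) ≤ ∫ w in Metric.ball (P 3) ρ, ‖g w‖ ^ 2 :=
    hB.1 g (P 3) ρ hρ0 (hg.mono hball)
  have hsub : Metric.ball (P 3) ρ ⊆ SB a (T + 1) := by
    intro w hw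
    have hw' : w ∈ Metric.ball (P 3) (2 * ρ) := Metric.ball_subset_ball (by linarith) hw
    refine ⟨hball hw', ?_⟩
    rw [Metric.mem_ball, dist_eq_norm] at hw
    have h2 : |(w - P 3).im| ≤ ‖w - P 3‖ := Complex.abs_im_le_norm _
    rw [Complex.sub_im] at h2
    have h3 : |w.im| ≤ |w.im - (P 3).im| + |(P 3).im| := by
      have := abs_add_le (w.im - (P 3).im) (P 3).im
      rwa [sub_add_cancel] at this
    linarith
  set K : ℝ := Real.exp (2 * Jd J X₀) * (2 * ρ) ^ 3 with hK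
  have h2 : (∫ w in Metric.ball (P 3) ρ, ‖g w‖ ^ 2) * K ≤
      ∫ w in SB a (T + 1), (Real.exp (-PhiJ a A s p J w) * ‖g w‖) ^ 2 := by
    calc (∫ w in Metric.ball (P 3) ρ, ‖g w‖ ^ 2) * K
        = ∫ w in Metric.ball (P 3) ρ, ‖g w‖ ^ 2 * K := (integral_mul_const _ _).symm
      _ ≤ ∫ w in Metric.ball (P 3) ρ, (Real.exp (-PhiJ a A s p J w) * ‖g w‖) ^ 2 := by
          refine integral_mono_of_nonneg (ae_of_all _ fun w => ?_) (hgi.mono_set hsub)
            (ae_restrict_of_forall_mem Metric.isOpen_ball.measurableSet fun w hw => ?_)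
          · change 0 ≤ ‖g w‖ ^ 2 * K
            positivity
          · change ‖g w‖ ^ 2 * K ≤ (Real.exp (-PhiJ a A s p J w) * ‖g w‖) ^ 2
            have h3 := hexp w hw
            have h4 : Real.exp (-PhiJ a A s p J w) ^ 2 = Real.exp (-(2 * PhiJ a A s p J w)) := by
              rw [← Real.exp_nat_mul]
              congr 1
              push_cast
              ring
            rw [mul_pow, h4, mul_comm]
            exact mul_le_mul_of_nonneg_right h3 (by positivity)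
      _ ≤ _ := setIntegral_mono_set hgi (ae_of_all _ fun w => by
          change 0 ≤ (Real.exp (-PhiJ a A s p J w) * ‖g w‖) ^ 2
          positivity) (HasSubset.Subset.eventuallyLE hsub)
  have h3 : ‖g (P 3) * mon J P‖ ^ 2 * R ^ 5 =
      4 / (Real.pi * c ^ 5) * (‖g (P 3)‖ ^ 2 * (Real.pi * ρ ^ 2) * K) := by
    have h4 : Real.exp (Jd J X₀) ^ 2 = Real.exp (2 * Jd J X₀) := by
      rw [← Real.exp_nat_mul]
      norm_num
    rw [norm_mul, norm_mon, ← hX0, mul_pow, h4, hK, hρ]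
    have hpi : Real.pi ≠ 0 := Real.pi_ne_zero
    field_simp
    ring
  rw [h3]
  refine mul_le_mul_of_nonneg_left ?_ (by positivity)
  exact (mul_le_mul_of_nonneg_right h1 (by positivity)).trans h2

end Pool.Agent.Helper8.AB
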