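import Pool.Agent.Helper15.AB.GoalsE

/-! # Project AB (MP_1ef41b_an), LVW: Levi form of a function of `w` only -/

open MeasureTheory Set Filter Topology
open scoped ContDiff

noncomputable section

namespace Pool.Agent.Helper8.AB

open Pool.Agent.Helper24.AB Pool.Agent.Helper15.AB

theorem lvw : S_LVW := by
  intro f P hf ξ
  set pr : V4 →L[ℝ] ℂ := ContinuousLinearMap.proj (R := ℝ) (φ := fun _ : Fin 4 => ℂ) 3 with hpr
  have hprv : ∀ Q : V4, pr Q = Q 3 := fun Q => rfl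
  -- first derivative
  have hev : ∀ᶠ w in 𝓝 (P 3), ContDiffAt ℝ 2 f w := hf.eventually (by simp)
  have hevQ : ∀ᶠ Q : V4 in 𝓝 P, ContDiffAt ℝ 2 f (Q 3) :=
    (continuous_apply 3).continuousAt.eventually hev
  have h1 : ∀ᶠ Q : V4 in 𝓝 P, fderiv ℝ (fun Q : V4 => f (Q 3)) Q = (fderiv ℝ f (Q 3)).comp pr := by
    filter_upwards [hevQ] with Q hQ
    have h2 : HasFDerivAt f (fderiv ℝ f (Q 3)) (pr Q) :=
      (hQ.differentiableAt (by norm_num)).hasFDerivAt
    exact (h2.comp Q pr.hasFDerivAt).fderiv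
  -- second derivative
  have h3 : DifferentiableAt ℝ (fderiv ℝ f) (P 3) :=
    (hf.fderiv_right (m := 1) (by norm_num)).differentiableAt (by norm_num)
  have h4 : HasFDerivAt (fun Q : V4 => (fderiv ℝ f (Q 3)).comp pr)
      (((ContinuousLinearMap.compL ℝ V4 ℂ ℝ).flip pr).comp
        ((fderiv ℝ (fderiv ℝ f) (P 3)).comp pr)) P := by
    have h5 : HasFDerivAt (fderiv ℝ f) (fderiv ℝ (fderiv ℝ f) (P 3)) (pr P) := h3.hasFDerivAt
    have h6 := h5.comp P pr.hasFDerivAt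
    exact ((ContinuousLinearMap.compL ℝ V4 ℂ ℝ).flip pr).hasFDerivAt.comp P h6
  have h7 : fderiv ℝ (fderiv ℝ (fun Q : V4 => f (Q 3))) P =
      ((ContinuousLinearMap.compL ℝ V4 ℂ ℝ).flip pr).comp
        ((fderiv ℝ (fderiv ℝ f) (P 3)).comp pr) :=
    (h4.congr_of_eventuallyEq h1).fderiv
  have h8 : ∀ η : V4, (fderiv ℝ (fderiv ℝ (fun Q : V4 => f (Q 3))) P η) η =
      (fderiv ℝ (fderiv ℝ f) (P 3) (η 3)) (η 3) := by
    intro η
    rw [h7]
    rfl
  -- the Laplacian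
  have h9 : lapC f (P 3) = (fderiv ℝ (fderiv ℝ f) (P 3) 1) 1 +
      (fderiv ℝ (fderiv ℝ f) (P 3) Complex.I) Complex.I := by
    have h10 : ∀ c : ℂ, fderiv ℝ (fun w => fderiv ℝ f w c) (P 3) c =
        (fderiv ℝ (fderiv ℝ f) (P 3) c) c := by
      intro c
      have h11 := (h3.hasFDerivAt.clm_apply (hasFDerivAt_const c (P 3))).fderiv
      rw [h11]
      simp
    unfold lapC
    exact congrArg₂ (· + ·) (h10 1) (h10 Complex.I)
  unfold leviForm
  rw [h8, h8, h9]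
  set D := fderiv ℝ (fderiv ℝ f) (P 3) with hD
  set c : ℂ := ξ 3 with hc
  have hIξ : (Complex.I • ξ) 3 = Complex.I * c := rfl
  rw [hIξ]
  have e1 : c = c.re • (1:ℂ) + c.im • Complex.I := by
    apply Complex.ext <;> simp
  have e2 : Complex.I * c = (-c.im) • (1:ℂ) + c.re • Complex.I := by
    apply Complex.ext <;> simp
  have e3 : ‖c‖ ^ 2 = c.re ^ 2 + c.im ^ 2 := by
    rw [← Complex.normSq_eq_norm_sq, Complex.normSq_apply]
    ring
  rw [e2, e3]
  have e4 : ∀ a b : ℝ, (D (a • (1:ℂ) + b • Complex.I)) (a • (1:ℂ) + b • Complex.I) =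
      a ^ 2 * (D 1) 1 + a * b * ((D 1) Complex.I + (D Complex.I) 1) +
        b ^ 2 * (D Complex.I) Complex.I := by
    intro a b
    simp only [map_add, map_smul, _root_.add_apply, _root_.smul_apply, smul_eq_mul]
    ring
  conv_lhs => rw [e1]
  rw [e4, e4]
  simp
  ring

end Pool.Agent.Helper8.AB
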