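import Pool.Agent.Helper15.AB.GoalsT

/-! # Project AB (MP_1ef41b_an), CLW: points of the closure of a tube, invariance -/

open MeasureTheory Set Filter Topology
open scoped ContDiff

noncomputable section

namespace Pool.Agent.Helper8.AB

open Pool.Agent.Helper24.AB Pool.Agent.Helper15.AB

theorem clw (hA : S_AFF) (hG : S_GRL) (hI : S_INVF) : S_CLW := by
  intro η a r W hW
  have hDo : IsOpen {P : V4 | |(P 3).re| < 3 * a / 2} := by
    have hc : Continuous fun P : V4 => |(P 3).re| :=
      (Complex.continuous_re.comp (continuous_apply 3)).abs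
    exact isOpen_lt hc continuous_const
  have hcont : ContinuousOn r {P : V4 | |(P 3).re| < 3 * a / 2} := hW.smooth.continuousOn
  have hWeq : W = {P : V4 | |(P 3).re| < 3 * a / 2} ∩ r ⁻¹' Iio 0 := by
    rw [hW.eqW]
    rfl
  have hWo : IsOpen W := by
    rw [hWeq]
    exact hcont.isOpen_inter_preimage hDo isOpen_Iio
  have hcl : ∀ P ∈ closure W, |(P 3).re| ≤ a ∧ r P ≤ 0 := by
    intro P hP
    have h1 : |(P 3).re| ≤ a := by
      have hc : Continuous fun P : V4 => |(P 3).re| :=
        (Complex.continuous_re.comp (continuous_apply 3)).abs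
      have hclosed : IsClosed {P : V4 | |(P 3).re| ≤ a} := isClosed_le hc continuous_const
      exact closure_minimal (fun Q hQ => (hW.lt_a Q hQ).le) hclosed hP
    have hPD : P ∈ {P : V4 | |(P 3).re| < 3 * a / 2} := by
      have := hW.a_pos
      change |(P 3).re| < 3 * a / 2
      linarith
    refine ⟨h1, ?_⟩
    by_contra hr
    rw [not_le] at hr
    have hca : ContinuousAt r P := hcont.continuousAt (hDo.mem_nhds hPD)
    have hev : ∀ᶠ Q in 𝓝 P, 0 < r Q := hca.eventually (lt_mem_nhds hr)
    obtain ⟨Q, hQ1, hQ2⟩ := mem_closure_iff_nhds.mp hP _ hev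
    have hQ3 : r Q < 0 := by
      rw [hWeq] at hQ2
      exact hQ2.2
    exact absurd hQ3 (not_lt.mpr (le_of_lt hQ1))
  have hinv : ∀ P P', GamRel P P' → P ∈ W → P' ∈ W := by
    intro P P' h hP
    have h1 : r P' = r P := by
      refine hI univ r (fun _ _ _ _ => mem_univ _) (fun Q _ => ⟨hW.inv_g Q, fun k => hW.inv_t Q k⟩)
        P (mem_univ _) P' h
    have h2 := hG.2.2.2.1 P P' h
    rw [hW.eqW] at hP ⊢
    refine ⟨?_, ?_⟩
    · rw [h2]
      exact hP.1
    · rw [h1]
      exact hP.2
  refine ⟨hWo, hcl, ?_, hinv, ?_⟩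
  · intro P hP hn
    obtain ⟨h1, h2⟩ := hcl P hP
    rcases lt_or_eq_of_le h2 with h3 | h3
    · exfalso
      apply hn
      rw [hW.eqW]
      have := hW.a_pos
      exact ⟨by linarith, h3⟩
    · exact h3
  · intro P P' h hP
    obtain ⟨j, k, hjk⟩ := h
    obtain ⟨L, c, -, hL⟩ := hA j k
    have hc : Continuous fun Q : V4 => tE k ((gE ^ j) Q) := by
      have he : (fun Q : V4 => tE k ((gE ^ j) Q)) = fun Q => L Q + c := funext hL
      rw [he]
      exact L.continuous.add continuous_const
    have hm : MapsTo (fun Q : V4 => tE k ((gE ^ j) Q)) W W := fun Q hQ =>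
      hinv Q _ ⟨j, k, rfl⟩ hQ
    rw [hjk]
    exact map_mem_closure (f := fun Q : V4 => tE k ((gE ^ j) Q)) hc hP hm

end Pool.Agent.Helper8.AB
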